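import Pool.Agent.N212.KS.Stm

/-!
# KS/TR: good sets can be moved by the group

Leaf of helper212's project KS.
-/

set_option autoImplicit false

namespace Pool.Agent.N106.KS

open Pool.Agent.N212.KS

universe u v w z

lemma sqrt_le_self' {t : ℝ} (ht : 1 ≤ t) : √t ≤ t := by
  have h1 : 1 ≤ √t := by
    rw [← Real.sqrt_one]; exact Real.sqrt_le_sqrt ht
  have h2 := Real.sq_sqrt (show 0 ≤ t by linarith)
  nlinarith

/-- heights of points move by a bounded factor -/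
lemma H_le {X : Type u} {N : Type v} {G : Type w} [TopologicalSpace X]
    [AddCommGroup N] [Module ℝ N] [CommGroup G] [MulAction G X]
    (D : HeightData X N) (P : AutData D G) (g : G) :
    ∃ K : ℝ, 0 < K ∧ ∀ y, D.H (g • y) ≤ K * D.H y := by
  obtain ⟨C5, h5⟩ := D.h_theta
  obtain ⟨C6, h6⟩ := P.h_pull g D.θ
  obtain ⟨C7, h7⟩ := D.h_bound (P.pull g D.θ)
  refine ⟨2 * |C7| + 2 * |C6| + C5 ^ 2 + 1, by positivity, fun y => ?_⟩
  have a1 := (abs_le.mp (h5 (g • y))).1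
  have a2 := (abs_le.mp (h6 y)).1
  have a3 := (abs_le.mp (h7 y)).2
  have hy := D.one_le_H y
  have hg := D.one_le_H (g • y)
  have hsy := sqrt_le_self' hy
  have hs0 := Real.sqrt_nonneg (D.H y)
  have hsg := Real.sqrt_nonneg (D.H (g • y))
  have hsq := Real.sq_sqrt (show 0 ≤ D.H (g • y) by linarith)
  have b1 : C5 * √(D.H (g • y)) ≤ D.H (g • y) / 2 + C5 ^ 2 / 2 := by
    nlinarith [sq_nonneg (√(D.H (g • y)) - C5)]
  have b2 : C6 * √(D.H y) ≤ |C6| * D.H y := by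
    calc C6 * √(D.H y) ≤ |C6| * √(D.H y) := mul_le_mul_of_nonneg_right (le_abs_self _) hs0
      _ ≤ |C6| * D.H y := mul_le_mul_of_nonneg_left hsy (abs_nonneg _)
  have b3 : C7 * D.H y ≤ |C7| * D.H y := mul_le_mul_of_nonneg_right (le_abs_self _) (by linarith)
  have b4 : C5 ^ 2 ≤ C5 ^ 2 * D.H y := le_mul_of_one_le_right (sq_nonneg _) hy
  nlinarith

/-- KS/TR -/
theorem t_TR : S_TR.{u, v, w, z} := by
  intro X N G ι _ _ _ _ _ _ _ D P E g Z hZ
  obtain ⟨hcl, hne, A, B, hA, hAB⟩ := hZ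
  refine ⟨hcl.preimage (P.cont g⁻¹), ?_, ?_⟩
  · intro h
    apply hne
    rw [Set.eq_univ_iff_forall] at h ⊢
    intro y
    have := h (g • y)
    simpa using this
  obtain ⟨K, hK, hKH⟩ := H_le D P g
  -- the eigenheights
  have hF1 : ∀ i, ∃ C : ℝ, ∀ y, |D.h (E.ℓ i) (g • y) - E.χ i g * D.h (E.ℓ i) y| ≤ C * √(D.H y) := by
    intro i
    obtain ⟨C, hC⟩ := P.h_pull g (E.ℓ i)
    obtain ⟨C', hC'⟩ := D.h_smul (E.χ i g) (E.ℓ i)
    refine ⟨C + C', fun y => ?_⟩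
    have h1 := hC y
    rw [E.pull_ℓ i g] at h1
    have h2 := hC' y
    rw [abs_le] at h1 h2 ⊢
    constructor <;> nlinarith [h1.1, h1.2, h2.1, h2.2]
  choose C1 hC1 using hF1
  obtain ⟨i0, hi0⟩ := Finite.exists_min (fun i => E.χ i g)
  set c : ℝ := E.χ i0 g with hc
  have hc0 : 0 < c := E.χ_pos i0 g
  set S : ℝ := ∑ i, (E.χ i g - c) with hS
  have hS0 : 0 ≤ S := Finset.sum_nonneg fun i _ => sub_nonneg.mpr (hi0 i)
  set ε : ℝ := c / (4 * A * (S + 1)) with hε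
  have hε0 : 0 < ε := by positivity
  have hεS : ε * S ≤ c / (4 * A) := by
    rw [hε, div_mul_eq_mul_div, div_le_div_iff₀ (by positivity) (by positivity)]
    nlinarith [mul_pos hc0 hA, mul_nonneg (mul_pos hc0 hA).le hS0]
  have hF2 : ∀ i, ∃ C : ℝ, ∀ y, -(ε * D.H y) - C ≤ D.h (E.ℓ i) y := fun i => D.h_nef _ (E.nef i) ε hε0
  choose C2 hC2 using hF2
  set T1 : ℝ := ∑ i, C1 i with hT1
  set T2 : ℝ := ∑ i, (E.χ i g - c) * C2 i with hT2
  set C4 : ℝ := c * B / A + T2 + A / c * T1 ^ 2 with hC4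
  refine ⟨K * (2 * A / c), K * (2 * A / c) * C4, by positivity, fun x hx => ?_⟩
  set y : X := g⁻¹ • x with hy
  have hxy : x = g • y := by rw [hy, smul_inv_smul]
  have hyZ : y ∉ Z := hx
  have hH := hAB y hyZ
  have hH1 := D.one_le_H y
  have hKy := hKH y
  rw [← hxy] at hKy
  -- lower bound for the sum at `x`
  have hsum : ∑ i, D.h (E.ℓ i) x ≥ c * ∑ i, D.h (E.ℓ i) y + (-(ε * D.H y * S) - T2) - T1 * √(D.H y) := by
    have h1 : ∀ i, c * D.h (E.ℓ i) y + (-(ε * D.H y * (E.χ i g - c)) - (E.χ i g - c) * C2 i) -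
        C1 i * √(D.H y) ≤ D.h (E.ℓ i) x := by
      intro i
      have h2 := (abs_le.mp (hC1 i y)).1
      rw [← hxy] at h2
      have h3 := mul_le_mul_of_nonneg_left (hC2 i y) (sub_nonneg.mpr (hi0 i))
      nlinarith [h2, h3]
    have h4 := Finset.sum_le_sum fun i (_ : i ∈ Finset.univ) => h1 i
    have h5 : ∑ i, (c * D.h (E.ℓ i) y + (-(ε * D.H y * (E.χ i g - c)) - (E.χ i g - c) * C2 i) -
        C1 i * √(D.H y)) = c * ∑ i, D.h (E.ℓ i) y + (-(ε * D.H y * S) - T2) - T1 * √(D.H y) := by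
      rw [Finset.sum_sub_distrib, Finset.sum_add_distrib, Finset.sum_sub_distrib,
        Finset.sum_neg_distrib, ← Finset.mul_sum, ← Finset.mul_sum, ← Finset.sum_mul]
    rw [h5] at h4
    exact h4
  -- estimates
  have e1 : c * ∑ i, D.h (E.ℓ i) y ≥ c / A * D.H y - c * B / A := by
    have : c / A * D.H y ≤ c / A * (A * ∑ i, D.h (E.ℓ i) y + B) :=
      mul_le_mul_of_nonneg_left hH (by positivity)
    have h6 : c / A * (A * ∑ i, D.h (E.ℓ i) y + B) = c * ∑ i, D.h (E.ℓ i) y + c * B / A := by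
      field_simp
    linarith
  have e2 : ε * D.H y * S ≤ c / (4 * A) * D.H y := by
    calc ε * D.H y * S = (ε * S) * D.H y := by ring
      _ ≤ c / (4 * A) * D.H y := mul_le_mul_of_nonneg_right hεS (by linarith)
  have e3 : T1 * √(D.H y) ≤ c / (4 * A) * D.H y + A / c * T1 ^ 2 := by
    have hsq := Real.sq_sqrt (show 0 ≤ D.H y by linarith)
    have h7 : 0 ≤ A / c * (c / (2 * A) * √(D.H y) - T1) ^ 2 := by positivity
    have h8 : A / c * (c / (2 * A) * √(D.H y) - T1) ^ 2 =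
        c / (4 * A) * (√(D.H y)) ^ 2 - T1 * √(D.H y) + A / c * T1 ^ 2 := by
      field_simp
      ring
    rw [h8, hsq] at h7
    linarith
  have e4 : c / (2 * A) * D.H y ≤ ∑ i, D.h (E.ℓ i) x + C4 := by
    have h9 : c / A * D.H y = c / (2 * A) * D.H y + c / (4 * A) * D.H y + c / (4 * A) * D.H y := by
      field_simp
      ring
    rw [hC4]
    linarith
  have e5 : D.H y ≤ 2 * A / c * (∑ i, D.h (E.ℓ i) x + C4) := by
    have h10 : D.H y = 2 * A / c * (c / (2 * A) * D.H y) := by field_simp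
    rw [h10]
    exact mul_le_mul_of_nonneg_left e4 (by positivity)
  calc D.H x ≤ K * D.H y := hKy
    _ ≤ K * (2 * A / c * (∑ i, D.h (E.ℓ i) x + C4)) := mul_le_mul_of_nonneg_left e5 hK.le
    _ = K * (2 * A / c) * ∑ i, D.h (E.ℓ i) x + K * (2 * A / c) * C4 := by ring

end Pool.Agent.N106.KS
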